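import Mathlib

set_option autoImplicit false
set_option maxSynthPendingDepth 3

namespace Pool.Agent.Results.MP_31821e_co.Both

/-- order-preserving idempotent self-maps, ordered pointwise. -/
abbrev Retr (L : Type*) [Preorder L] := {r : L → L // Monotone r ∧ r ∘ r = r}

/-- Q1 fails for the chain `ℕ`; Q2 holds. -/
theorem result :
    (∃ r s : Retr ℕ, ¬ ∃ t, IsLUB {r, s} t) ∧
    ∀ (L : Type*) [CompleteLattice L] (S : Set (Retr L)), (∃ t, IsLUB S t) ∧ ∃ t, IsGLB S t := by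
  refine ⟨⟨⟨fun x => (x + 1) / 2 * 2, fun x y h => by simp only; omega,
      funext fun x => by simp only [Function.comp]; omega⟩,
    ⟨fun x => x / 2 * 2 + 1, fun x y h => by simp only; omega,
      funext fun x => by simp only [Function.comp]; omega⟩, ?_⟩, ?_⟩
  · rintro ⟨t, h, -⟩
    have h1 : _ ≤ t.1 (t.1 0) := h (Or.inl rfl) (t.1 0)
    have h2 : _ ≤ t.1 (t.1 0) := h (Or.inr rfl) (t.1 0)
    have h3 : t.1 (t.1 0) = t.1 0 := congrFun t.2.2 0
    simp only at h1 h2
    omega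
  · intro L _ S
    let Φ : (L →o L) →o (L →o L) := ⟨fun f => f.comp f, fun f g h x => (h _).trans (g.mono (h x))⟩
    let e : Function.fixedPoints Φ ≃o Retr L :=
      { toFun := fun f => ⟨f.1, f.1.mono, congrArg DFunLike.coe f.2⟩
        invFun := fun r => ⟨⟨r.1, r.2.1⟩, OrderHom.ext _ _ r.2.2⟩
        map_rel_iff' := Iff.rfl }
    exact ⟨⟨_, e.isLUB_preimage.1 (isLUB_sSup (e ⁻¹' S))⟩, _,
      e.isGLB_preimage.1 (isGLB_sInf (e ⁻¹' S))⟩

end Pool.Agent.Results.MP_31821e_co.Both
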